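import Pool.Agent.K6.H72.FB.A4

/-!
# Liftability of stable displacements at a dense set of points
-/

set_option autoImplicit false
set_option linter.unusedSectionVars false

open Filter Topology Set Metric unitInterval

namespace Pool.Agent.K6.H54.AN

open Pool.Agent.H789R2.AN Pool.Agent.H789R2.GP Pool.Agent.TH289.K Pool.Agent.TH289.L
  Pool.Agent.K6.H72.FB

variable {X : Type*} [MetricSpace X] [CompactSpace X] {g : X ≃ₜ X} {c : ℝ}

/-- liftability is transported backwards along strips -/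
theorem lf_move (h : LP g c) (Γ : C(I, Pr g)) (hf : Lf g (Γ 1).x (Γ 1).y) :
    Lf g (Γ 0).x (Γ 0).y := by
  intro υ hυ
  let half : I := ⟨1 / 2, by norm_num, by norm_num⟩
  let p₁ : Path (Γ 1).fst (Γ 0).fst :=
    { toFun := fun t => (Γ (σ t)).fst
      continuous_toFun := Pr.fst_continuous.comp (Γ.continuous.comp continuous_symm)
      source' := by simp
      target' := by simp }
  let p₂ : Path (Γ 0).fst (υ 1) :=
    { toFun := υ
      continuous_toFun := υ.continuous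
      source' := SM.ext hυ
      target' := rfl }
  let q : C(I, SM g.symm) := (p₁.trans p₂).toContinuousMap
  have hq : ∀ t, q t = (p₁.trans p₂) t := fun t => rfl
  have hq1 : ∀ t : I, q (aff 0 half t) = (Γ (σ t)).fst := by
    intro t
    have e : ((aff 0 half t : I) : ℝ) = t / 2 := by
      rw [aff_val]
      show ((0 : I) : ℝ) + ((1 / 2 : ℝ) - ((0 : I) : ℝ)) * t = t / 2
      simp
      ring
    rw [hq, Path.trans_apply, dif_pos (by rw [e]; have := t.2.2; linarith)]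
    show (Γ (σ ⟨2 * ((aff 0 half t : I) : ℝ), _⟩)).fst = _
    congr 3
    apply Subtype.ext
    show 2 * ((aff 0 half t : I) : ℝ) = t
    rw [e]; ring
  have hq2 : ∀ t : I, q (aff half 1 t) = υ t := by
    intro t
    have e : ((aff half 1 t : I) : ℝ) = (1 + t) / 2 := by
      rw [aff_val]
      show (1 / 2 : ℝ) + (((1 : I) : ℝ) - 1 / 2) * t = (1 + t) / 2
      simp
      ring
    rw [hq, Path.trans_apply]
    split_ifs with ht
    · rw [e] at ht
      have h0 : (t : ℝ) = 0 := le_antisymm (by linarith) t.2.1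
      have ht0 : t = 0 := Subtype.ext h0
      subst ht0
      show (Γ (σ ⟨2 * ((aff half 1 0 : I) : ℝ), _⟩)).fst = υ 0
      have e2 : (⟨2 * ((aff half 1 0 : I) : ℝ), by rw [e]; norm_num⟩ : I) = 1 := by
        apply Subtype.ext
        show 2 * ((aff half 1 0 : I) : ℝ) = 1
        rw [e]; simp
      rw [e2]
      simp only [symm_one]
      exact SM.ext hυ.symm
    · show υ ⟨2 * ((aff half 1 t : I) : ℝ) - 1, _⟩ = υ t
      congr 1
      apply Subtype.ext
      show 2 * ((aff half 1 t : I) : ℝ) - 1 = t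
      rw [e]; ring
  have hq0 : (q 0).val = (Γ 1).x := by
    have := hq1 0
    rw [aff_zero] at this
    rw [this]
    simp [Pr.fst]
  obtain ⟨x, Γ', g0, g1, g2⟩ := hf q hq0
  -- on the first half the strip is the reversed strip
  have hrev : (Γ' half).y = (Γ 0).y := by
    let Γr : C(I, Pr g) := ⟨fun t => Γ (σ t), Γ.continuous.comp continuous_symm⟩
    have h5 := strip_unique h (seg Γ' 0 half) Γr (fun t => ?_) 0 ?_ 1
    · rw [seg_one] at h5
      rw [h5]
      show (Γ (σ 1)).y = _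
      rw [symm_one]
    · rw [seg_apply, g2, hq1]
      rfl
    · rw [seg_zero, g0]
      show _ = (Γ (σ 0)).y
      rw [symm_zero]
  refine ⟨x, seg Γ' half 1, ?_, ?_, fun t => ?_⟩
  · rw [seg_zero, hrev]
  · rw [seg_one, g1]
  · rw [seg_apply, g2, hq2]

/-- **Liftability at a dense set of points.** -/
theorem lf_of_dense (h : LP g c) (hX : ULC X) {D : Set X} (hD : Dense D)
    (hP : ∀ p ∈ D, ∀ s, WS g p s → Lf g p s) : ∀ a s, WS g a s → Lf g a s := by
  intro a s has υ hυ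
  have hc := h.c_pos
  obtain ⟨br, δ, hδ, b1, b2, b3, b4⟩ := exists_br h
  -- the local homeomorphism at `(a, s)`
  let q₀ : Pr g := ⟨a, s, has⟩
  obtain ⟨e, he1, he2⟩ := fst_isLocalHomeomorph h q₀
  have hfst : ∀ q, Pr.fst q = e q := fun q => by rw [← he2]
  have hq0 : e q₀ = ⟨a⟩ := (hfst q₀).symm
  have hmem : e.target ∈ 𝓝 (⟨a⟩ : SM g.symm) := by
    rw [← hq0]
    exact e.open_target.mem_nhds (e.map_source he1)
  obtain ⟨δ₁, hδ₁, hδ₁'⟩ := Metric.mem_nhds_iff.1 hmem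
  -- thin strips along `υ`
  obtain ⟨n, hn⟩ := thin_lift h.symm υ
  obtain ⟨η₁, hη₁, T1⟩ := hn 1 one_pos
  -- the sizes
  obtain ⟨η₃, hη₃, B3⟩ := b2 (δ₁ / 2) (half_pos hδ₁)
  set ε₂ := min (δ / 3) (η₃ / 3) with hε₂
  have hε₂0 : 0 < ε₂ := by positivity
  obtain ⟨η₂, hη₂, L2⟩ := leaf_path h.symm hX ε₂ hε₂0
  set ε₄ := min (min η₁ η₂) (min ε₂ (c / 3)) with hε₄
  have hε₄0 : 0 < ε₄ := by positivity
  obtain ⟨η₄, hη₄, B4⟩ := b2 ε₄ hε₄0
  obtain ⟨p, hpD, hp⟩ := Metric.mem_closure_iff.1 (hD a) η₄ hη₄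
  obtain ⟨w1, w2⟩ := B4 a p hp
  set w := br a p with hw
  have m1 : ε₄ ≤ η₁ := (min_le_left _ _).trans (min_le_left _ _)
  have m2 : ε₄ ≤ η₂ := (min_le_left _ _).trans (min_le_right _ _)
  have m3 : ε₄ ≤ ε₂ := (min_le_right _ _).trans (min_le_left _ _)
  have m4 : ε₄ ≤ c / 3 := (min_le_right _ _).trans (min_le_right _ _)
  have m5 : ε₂ ≤ δ / 3 := min_le_left _ _
  have m6 : ε₂ ≤ η₃ / 3 := min_le_right _ _
  -- the small unstable path from `w` to `p`
  obtain ⟨κ, κ0, κ1, κs⟩ := L2 (⟨w⟩ : SM g.symm) ⟨p⟩ ((SM.dist_le _ _ hη₂.le).2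
    (w2.symm'.mono m2))
  have hwa : dist w a ≤ ε₂ := by
    have := w1 0
    rw [dist_comm]
    exact this.trans m3
  have hκa : ∀ t, dist (κ t).val a ≤ 2 * ε₂ := by
    intro t
    have k1 : dist w (κ t).val ≤ ε₂ := (lift_val_dist _ _).trans (κs t)
    have k2 := dist_triangle_left (κ t).val a w
    linarith
  obtain ⟨Γ₁, x1, y1⟩ := br_strip h b1 b4 κ a (fun t => by
    have := hκa t
    linarith)
  have y10 : (Γ₁ 0).y = a := by
    rw [y1, κ0]
    refine (b3 w a a ?_ (w1.symm'.mono m4) (SR_zero (by positivity))).symm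
    linarith
  -- the second side
  have hclose : ∀ t, dist ((Γ₁ t).snd) (⟨a⟩ : SM g.symm) ≤ δ₁ / 2 := by
    intro t
    refine (SM.dist_le _ _ (half_pos hδ₁).le).2 ?_
    show SR g.symm (δ₁ / 2) (Γ₁ t).y a
    rw [y1]
    exact (B3 _ _ (by have := hκa t; linarith)).2.symm'
  have hin : ∀ t, (Γ₁ t).snd ∈ e.target := fun t => hδ₁' (by
    rw [mem_ball]
    exact lt_of_le_of_lt (hclose t) (half_lt_self hδ₁))
  let Γ₂ : C(I, Pr g) := ⟨fun t => e.symm (Γ₁ t).snd,
    e.continuousOn_symm.comp_continuous (Pr.snd_continuous.comp Γ₁.continuous) hin⟩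
  have x2 : ∀ t, (Γ₂ t).x = (Γ₁ t).y := by
    intro t
    have h1 : Pr.fst (e.symm (Γ₁ t).snd) = (Γ₁ t).snd := by
      rw [hfst, e.right_inv (hin t)]
    exact congrArg SM.val h1
  have y20 : (Γ₂ 0).y = s := by
    show (e.symm (Γ₁ 0).snd).y = s
    have h1 : (Γ₁ 0).snd = e q₀ := by
      rw [hq0]
      exact SM.ext y10
    rw [h1, e.left_inv he1]
  obtain ⟨Γ₃, x3, y3⟩ := strip_comp Γ₁ Γ₂ x2
  have k0 : (Γ₃ 0).x = w := by rw [x3, x1, κ0]
  have k1 : (Γ₃ 0).y = s := by rw [y3, y20]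
  have k2 : (Γ₃ 1).x = p := by rw [x3, x1, κ1]
  have hws : Lf g w s := by
    have h1 : Lf g (Γ₃ 1).x (Γ₃ 1).y := by
      have h2 := (Γ₃ 1).h
      rw [k2] at h2 ⊢
      exact hP p hpD _ h2
    have h2 := lf_move h Γ₃ h1
    rwa [k0, k1] at h2
  -- the strip along `υ` from `w`
  obtain ⟨Γ₀, z1, z2, -, -⟩ := T1 w (by rw [hυ]; exact w1.mono m1)
  let υw : C(I, SM g.symm) := ⟨fun t => (Pr.snd (g := g) (Γ₀ t)),
    (Pr.snd_continuous (g := g)).comp Γ₀.continuous⟩
  obtain ⟨x, hx⟩ := hws υw z2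
  exact ⟨x, LO_comp (g := g) (υ' := υw) ⟨Γ₀, rfl, rfl, z1, fun t => rfl⟩ hx⟩

end Pool.Agent.K6.H54.AN
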