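import Mathlib
import Pool.Agent.TH289.K.Def
import Pool.Agent.H721R2.AnosovDef

/-!
# Product structure at a point: symmetries, recurrence
-/

set_option autoImplicit false
set_option linter.unusedSectionVars false

open Filter Topology Set unitInterval MeasureTheory

namespace Pool.Agent.K6.H54.AN

open Pool.Agent.TH289.K Pool.Agent.H721R2

variable {M : Type*} [TopologicalSpace M]

/-- The stable path `α` and the unstable path `β` of `f` (with the same initial point) span a
rectangle, that is, there is a continuous map `R` of the square with `R(·, 0) = α`, `R(0, ·) = β`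
whose horizontal sides lie in stable leaves (they are contracted uniformly by the iterates of `f`)
and whose vertical sides lie in unstable leaves (they are contracted uniformly by the iterates of
`f⁻¹`). -/
def Spans (f : M ≃ₜ M) (α β : C(I, M)) : Prop :=
  ∃ R : C(I × I, M), (∀ s, R (s, 0) = α s) ∧ (∀ t, R (0, t) = β t) ∧
    ∀ 𝒰 ∈ 𝓝ˢ (diagonal M), ∀ᶠ n in atTop, ∀ s t,
      (f^[n] (R (0, t)), f^[n] (R (s, t))) ∈ 𝒰 ∧
      (f.symm^[n] (R (s, 0)), f.symm^[n] (R (s, t))) ∈ 𝒰

/-- Product structure at the point `p` up to the stable size `𝒲`: every stable path `α` with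
initial point `p` whose forward iterates are `𝒲`-small and every unstable path `β` (of whatever
length) with initial point `p` span a rectangle.  For `𝒲 = univ` there is no restriction on the
stable path. -/
def ProductAt (f : M ≃ₜ M) (𝒲 : Set (M × M)) (p : M) : Prop :=
  ∀ α β : C(I, M), StablePath f α → StablePath f.symm β → α 0 = p → β 0 = p →
    (∀ (n : ℕ) (t : I), (f^[n] (α 0), f^[n] (α t)) ∈ 𝒲) → Spans f α β

theorem gps_iff (f : M ≃ₜ M) : GPS f ↔ ∀ p, ProductAt f univ p := by
  constructor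
  · intro h p α β hα hβ h1 h2 _
    exact h α β hα hβ (h1.trans h2.symm)
  · intro h α β hα hβ h0
    exact h (α 0) α β hα hβ rfl h0.symm fun _ _ => mem_univ _

/-- composition of a path with a homeomorphism -/
def cmp (φ : M ≃ₜ M) (α : C(I, M)) : C(I, M) := ⟨fun t => φ (α t), φ.continuous.comp α.continuous⟩

theorem cmp_apply (φ : M ≃ₜ M) (α : C(I, M)) (t : I) : cmp φ α t = φ (α t) := rfl

theorem cmp_symm (φ : M ≃ₜ M) (α : C(I, M)) : cmp φ.symm (cmp φ α) = α := by
  ext t
  rw [cmp_apply, cmp_apply, φ.symm_apply_apply]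

theorem pre_diag (φ : M ≃ₜ M) {𝒰 : Set (M × M)} (h : 𝒰 ∈ 𝓝ˢ (diagonal M)) :
    {q : M × M | (φ q.1, φ q.2) ∈ 𝒰} ∈ 𝓝ˢ (diagonal M) := by
  rw [mem_nhdsSet_iff_forall] at h ⊢
  rintro ⟨a, b⟩ hab
  rw [mem_diagonal_iff] at hab
  simp only at hab
  subst hab
  have hc : Continuous fun q : M × M => (φ q.1, φ q.2) :=
    (φ.continuous.comp continuous_fst).prodMk (φ.continuous.comp continuous_snd)
  exact hc.continuousAt.preimage_mem_nhds (h (φ a, φ a) rfl)

theorem semi_symm {f g φ : M ≃ₜ M} (h : ∀ x, φ (f x) = g (φ x)) (x : M) :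
    φ (f.symm x) = g.symm (φ x) := by
  apply g.injective
  rw [← h, f.apply_symm_apply, g.apply_symm_apply]

theorem semi_it {f g φ : M ≃ₜ M} (h : ∀ x, φ (f x) = g (φ x)) (n : ℕ) (x : M) :
    φ (f^[n] x) = g^[n] (φ x) :=
  (Function.Semiconj.iterate_right (f := φ) (ga := f) (gb := g) h n) x

theorem stable_semi {f g φ : M ≃ₜ M} (h : ∀ x, φ (f x) = g (φ x)) {α : C(I, M)}
    (hα : StablePath f α) : StablePath g (cmp φ α) := by
  intro 𝒰 h𝒰
  filter_upwards [hα _ (pre_diag φ h𝒰)] with n hn t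
  have h1 : (φ (f^[n] (α 0)), φ (f^[n] (α t))) ∈ 𝒰 := hn t
  rw [cmp_apply, cmp_apply, ← semi_it h, ← semi_it h]
  exact h1

theorem spans_semi {f g φ : M ≃ₜ M} (h : ∀ x, φ (f x) = g (φ x)) {α β : C(I, M)}
    (hs : Spans f α β) : Spans g (cmp φ α) (cmp φ β) := by
  obtain ⟨R, h1, h2, h3⟩ := hs
  refine ⟨⟨fun q => φ (R q), φ.continuous.comp R.continuous⟩, fun s => ?_, fun t => ?_,
    fun 𝒰 h𝒰 => ?_⟩
  · show φ (R (s, 0)) = _
    rw [h1]; rfl
  · show φ (R (0, t)) = _
    rw [h2]; rfl
  · filter_upwards [h3 _ (pre_diag φ h𝒰)] with n hn s t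
    have h4 : (φ (f^[n] (R (0, t))), φ (f^[n] (R (s, t)))) ∈ 𝒰 ∧
      (φ (f.symm^[n] (R (s, 0))), φ (f.symm^[n] (R (s, t)))) ∈ 𝒰 := hn s t
    show (g^[n] (φ (R (0, t))), g^[n] (φ (R (s, t)))) ∈ 𝒰 ∧
      (g.symm^[n] (φ (R (s, 0))), g.symm^[n] (φ (R (s, t)))) ∈ 𝒰
    rw [← semi_it h, ← semi_it h, ← semi_it (f := f.symm) (g := g.symm) (semi_symm h),
      ← semi_it (f := f.symm) (g := g.symm) (semi_symm h)]
    exact h4

theorem spans_swap {f : M ≃ₜ M} {α β : C(I, M)} (hs : Spans f α β) : Spans f.symm β α := by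
  obtain ⟨R, h1, h2, h3⟩ := hs
  refine ⟨R.comp ⟨Prod.swap, continuous_swap⟩, fun s => h2 s, fun t => h1 t, fun 𝒰 h𝒰 => ?_⟩
  filter_upwards [h3 _ h𝒰] with n hn s t
  exact ⟨(hn t s).2, (hn t s).1⟩

/-- `φ` is a symmetry or a reversing symmetry of `f` -/
def IsSymmetry (f φ : M ≃ₜ M) : Prop :=
  (∀ x, φ (f x) = f (φ x)) ∨ ∀ x, φ (f x) = f.symm (φ x)

theorem full_symm {f : M ≃ₜ M} {p : M} (h : ProductAt f univ p) : ProductAt f.symm univ p :=
  fun α β hα hβ h1 h2 _ => spans_swap (h β α hβ hα h2 h1 fun _ _ => mem_univ _)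

theorem full_semi {f g φ : M ≃ₜ M} (h : ∀ x, φ (f x) = g (φ x)) {p : M}
    (hp : ProductAt f univ p) : ProductAt g univ (φ p) := by
  intro α β hα hβ h1 h2 _
  have hi : ∀ x, φ.symm (g x) = f (φ.symm x) := fun x => by
    apply φ.injective
    rw [φ.apply_symm_apply, h, φ.apply_symm_apply]
  have h3 := hp (cmp φ.symm α) (cmp φ.symm β) (stable_semi hi hα)
    (stable_semi (f := g.symm) (g := f.symm) (semi_symm hi) hβ)
    (by rw [cmp_apply, h1, φ.symm_apply_apply]) (by rw [cmp_apply, h2, φ.symm_apply_apply])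
    (fun _ _ => mem_univ _)
  have h4 := spans_semi h h3
  have e : ∀ γ : C(I, M), cmp φ (cmp φ.symm γ) = γ := fun γ => cmp_symm φ.symm γ
  rwa [e, e] at h4

theorem full_of_symmetry {f φ : M ≃ₜ M} (h : IsSymmetry f φ) {p : M}
    (hp : ProductAt f univ p) : ProductAt f univ (φ p) := by
  rcases h with h | h
  · exact full_semi h hp
  · exact full_symm (full_semi h hp)

theorem full_iff (f : M ≃ₜ M) (p : M) : ProductAt f univ (f p) ↔ ProductAt f univ p := by
  constructor
  · intro h
    have := full_semi (φ := f.symm) (f := f) (g := f) (fun x => by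
      rw [f.symm_apply_apply, f.apply_symm_apply]) h
    rwa [f.symm_apply_apply] at this
  · exact full_semi (φ := f) (fun _ => rfl)

/-- iterates of a path -/
def itp (f : M ≃ₜ M) (n : ℕ) (α : C(I, M)) : C(I, M) :=
  ⟨fun t => f^[n] (α t), (f.continuous.iterate n).comp α.continuous⟩

theorem spans_it (f : M ≃ₜ M) (n : ℕ) (α β : C(I, M)) (h : Spans f (itp f n α) (itp f n β)) :
    Spans f α β := by
  induction n generalizing α β with
  | zero => exact h
  | succ n ih =>
    have h1 : Spans f (cmp f α) (cmp f β) := ih (cmp f α) (cmp f β) h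
    have h2 := spans_semi (φ := f.symm) (f := f) (g := f) (fun x => by
      rw [f.symm_apply_apply, f.apply_symm_apply]) h1
    rwa [cmp_symm, cmp_symm] at h2

theorem stable_it {f g : M ≃ₜ M} (hc : ∀ x, f (g x) = g (f x)) (n : ℕ) (α : C(I, M))
    (h : StablePath g α) : StablePath g (itp f n α) := by
  induction n generalizing α with
  | zero => exact h
  | succ n ih => exact ih (cmp f α) (stable_semi (φ := f) hc h)

/-- **Recurrence.** -/
theorem full_of_frequently {f : M ≃ₜ M} {𝒲 : Set (M × M)} (h𝒲 : 𝒲 ∈ 𝓝ˢ (diagonal M)) {p : M}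
    (h : ∃ᶠ n : ℕ in atTop, ProductAt f 𝒲 (f^[n] p)) : ProductAt f univ p := by
  intro α β hα hβ h1 h2 _
  obtain ⟨N, hN⟩ := eventually_atTop.1 (hα 𝒲 h𝒲)
  obtain ⟨n, hn, hP⟩ := frequently_atTop.1 h N
  refine spans_it f n α β (hP _ _ (stable_it (fun _ => rfl) n α hα)
    (stable_it (f := f) (g := f.symm) (fun x => by
      rw [f.symm_apply_apply, f.apply_symm_apply]) n β hβ) ?_ ?_ fun k t => ?_)
  · show f^[n] (α 0) = _
    rw [h1]
  · show f^[n] (β 0) = _
    rw [h2]
  · show (f^[k] (f^[n] (α 0)), f^[k] (f^[n] (α t))) ∈ 𝒲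
    rw [← Function.iterate_add_apply, ← Function.iterate_add_apply]
    exact hN (k + n) (by omega) t

/-- the set of the points with product structure -/
def Pts (f : M ≃ₜ M) : Set M := {p | ProductAt f univ p}

theorem pts_closure (f : M ≃ₜ M) : f ⁻¹' closure (Pts f) = closure (Pts f) := by
  rw [f.preimage_closure]
  congr 1
  ext p
  exact full_iff f p

theorem pts_closure_it (f : M ≃ₜ M) (n : ℕ) (x : M) :
    f^[n] x ∈ closure (Pts f) ↔ x ∈ closure (Pts f) := by
  induction n generalizing x with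
  | zero => exact Iff.rfl
  | succ n ih =>
    rw [Function.iterate_succ_apply, ih]
    have h := pts_closure f
    exact Set.ext_iff.1 h x

/-- in the transitive case: dense somewhere, dense everywhere -/
theorem dense_of_interior {f : M ≃ₜ M} (hT : TopTransitive f)
    (h : (interior (closure (Pts f))).Nonempty) : Dense (Pts f) := by
  by_contra hcon
  rw [dense_iff_closure_eq, ← ne_eq, ← nonempty_compl] at hcon
  obtain ⟨n, y, ⟨x, hx, rfl⟩, hy⟩ := hT _ _ isOpen_interior h isClosed_closure.isOpen_compl hcon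
  exact hy ((pts_closure_it f n x).2 (interior_subset hx))

theorem isOpen_it (f : M ≃ₜ M) (m : ℕ) {V : Set M} (hV : IsOpen V) : IsOpen (f^[m] '' V) := by
  induction m generalizing V with
  | zero => simpa using hV
  | succ m ih =>
    rw [Function.iterate_succ, image_comp]
    exact ih (f.isOpenMap V hV)

/-- in the transitive case: product structure up to some stable size on an open set -/
theorem dense_of_open [CompactSpace M] [T2Space M] {f : M ≃ₜ M} (hT : TopTransitive f)
    {𝒲 : Set (M × M)} (h𝒲 : 𝒲 ∈ 𝓝ˢ (diagonal M))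
    (h : (interior {p | ProductAt f 𝒲 p}).Nonempty) : Dense (Pts f) := by
  set U := interior {p | ProductAt f 𝒲 p} with hU
  have key : Dense (⋂ m : ℕ, ⋃ n : ℕ, f^[n + m] ⁻¹' U) := by
    refine dense_iInter_of_isOpen (fun m => isOpen_iUnion fun n =>
      isOpen_interior.preimage (f.continuous.iterate _)) fun m => ?_
    rw [dense_iff_inter_open]
    intro V hV hVn
    have h1 : IsOpen (f^[m] '' V) := isOpen_it f m hV
    obtain ⟨n, y, ⟨x, ⟨v, hv, rfl⟩, rfl⟩, hy⟩ := hT _ _ h1 (hVn.image _) isOpen_interior h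
    refine ⟨v, hv, mem_iUnion.2 ⟨n, ?_⟩⟩
    show f^[n + m] v ∈ U
    rw [Function.iterate_add_apply]
    exact hy
  refine key.mono fun p hp => ?_
  refine full_of_frequently h𝒲 (frequently_atTop.2 fun m => ?_)
  obtain ⟨n, hn⟩ := mem_iUnion.1 (mem_iInter.1 hp m)
  exact ⟨n + m, by omega, interior_subset hn⟩

/-- ergodic measures of full support -/
theorem dense_of_measure [MeasurableSpace M] [BorelSpace M] {f : M ≃ₜ M} (μ : Measure M)
    [IsFiniteMeasure μ] [μ.IsOpenPosMeasure] (he : Ergodic f μ)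
    {𝒲 : Set (M × M)} (h𝒲 : 𝒲 ∈ 𝓝ˢ (diagonal M)) {A : Set M} (hA : MeasurableSet A)
    (hA0 : μ A ≠ 0) (h : ∀ p ∈ A, ProductAt f 𝒲 p) : Dense (Pts f) := by
  have hcons : Conservative f μ := he.toMeasurePreserving.conservative
  have h1 : ∀ᵐ x ∂μ, x ∈ A → x ∈ closure (Pts f) := by
    filter_upwards [hcons.ae_mem_imp_frequently_image_mem hA.nullMeasurableSet] with x hx hxA
    exact subset_closure (full_of_frequently h𝒲 ((hx hxA).mono fun n hn => h _ hn))
  have hK : MeasurableSet (closure (Pts f)) := isClosed_closure.measurableSet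
  rcases he.toPreErgodic.ae_empty_or_univ hK (pts_closure f) with h2 | h2
  · exfalso
    apply hA0
    have h3 : ∀ᵐ x ∂μ, x ∉ closure (Pts f) := by
      filter_upwards [h2] with x hx hxK
      exact (hx.mp hxK)
    rw [measure_eq_zero_iff_ae_notMem]
    filter_upwards [h1, h3] with x hx1 hx2 hxA
    exact hx2 (hx1 hxA)
  · rw [dense_iff_closure_eq]
    have h3 : μ (closure (Pts f))ᶜ = 0 := by
      rw [measure_eq_zero_iff_ae_notMem]
      filter_upwards [h2] with x hx hxK
      exact hxK (hx.mpr trivial)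
    have h4 := isClosed_closure.isOpen_compl.measure_eq_zero_iff μ |>.1 h3
    exact compl_empty_iff.1 h4

end Pool.Agent.K6.H54.AN
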