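import Pool.Agent.K6.H54.AN.Core
import Pool.Agent.K6.H54.AN.Top
import Pool.Agent.TH304.K289.Base

/-!
# Liftability of stable displacements of a given size
-/

set_option autoImplicit false
set_option linter.unusedSectionVars false

open Filter Topology Set Metric unitInterval

namespace Pool.Agent.K6.H54.AN

open Pool.Agent.H721R2 Pool.Agent.H789R2.AN Pool.Agent.H789R2.GP Pool.Agent.TH289.K
  Pool.Agent.TH289.L Pool.Agent.TH304.K289 Pool.Agent.K6.H72.FB

variable {X : Type*} [MetricSpace X] [CompactSpace X] {g : X ≃ₜ X} {c : ℝ}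

/-- the stable displacements of size `ρ` at `p` are liftable -/
def LfS (g : X ≃ₜ X) (ρ : ℝ) (p : X) : Prop := ∀ s, SR g ρ p s → Lf g p s

theorem lfs_closure (h : LP g c) (hX : ULC X) {ρ : ℝ} (hρ : 0 < ρ) :
    ∃ ρ' > 0, ∀ a ∈ closure {p | LfS g ρ p}, LfS g ρ' a := by
  have hc := h.c_pos
  obtain ⟨br, δ, hδ, b1, b2, b3, b4⟩ := exists_br h
  obtain ⟨η₀, hη₀, B0⟩ := b2 ρ hρ
  set r := min (min δ η₀) c with hr
  have hr0 : 0 < r := by positivity
  have r1 : r ≤ δ := (min_le_left _ _).trans (min_le_left _ _)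
  have r2 : r ≤ η₀ := (min_le_left _ _).trans (min_le_right _ _)
  have r3 : r ≤ c := min_le_right _ _
  refine ⟨r / 6, by positivity, fun a ha s has υ hυ => ?_⟩
  obtain ⟨n, hn⟩ := thin_lift h.symm υ
  obtain ⟨η₁, hη₁, T1⟩ := hn 1 one_pos
  obtain ⟨η₂, hη₂, L2⟩ := leaf_path h.symm hX (r / 6) (by positivity)
  set ε₄ := min (min η₁ η₂) (r / 6) with hε₄
  have hε₄0 : 0 < ε₄ := by positivity
  have m1 : ε₄ ≤ η₁ := (min_le_left _ _).trans (min_le_left _ _)
  have m2 : ε₄ ≤ η₂ := (min_le_left _ _).trans (min_le_right _ _)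
  have m3 : ε₄ ≤ r / 6 := min_le_right _ _
  obtain ⟨η₄, hη₄, B4⟩ := b2 ε₄ hε₄0
  obtain ⟨p, hpD, hp⟩ := Metric.mem_closure_iff.1 ha η₄ hη₄
  obtain ⟨w1, w2⟩ := B4 a p hp
  set w := br a p with hw
  obtain ⟨κ, κ0, κ1, κs⟩ := L2 (⟨w⟩ : SM g.symm) ⟨p⟩ ((SM.dist_le _ _ hη₂.le).2
    (w2.symm'.mono m2))
  have hws : SR g (r / 3) w s := fun k => by
    have h1 := w1 k
    have h2 := has k
    have h3 := dist_triangle_left (g^[k] w) (g^[k] s) (g^[k] a)
    linarith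
  have hκs : ∀ t, dist (κ t).val s < r := by
    intro t
    have k1 : dist w (κ t).val ≤ r / 6 := (lift_val_dist _ _).trans (κs t)
    have k2 : dist w s ≤ r / 3 := hws 0
    have k3 := dist_triangle_left (κ t).val s w
    linarith
  obtain ⟨Γ₁, x1, y1⟩ := br_strip h b1 b4 κ s (fun t => (hκs t).trans_le r1)
  have y10 : (Γ₁ 0).y = s := by
    rw [y1, κ0]
    have e0 : dist w s < δ := by
      have := hκs 0
      rw [κ0] at this
      exact this.trans_le r1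
    exact (b3 w s s e0 (hws.mono (by linarith)) (SR_zero (by positivity))).symm
  have hLw : Lf g w s := by
    have h1 : Lf g (Γ₁ 1).x (Γ₁ 1).y := by
      rw [x1, y1, κ1]
      have e1 := hκs 1
      rw [κ1] at e1
      exact hpD _ (B0 _ _ (e1.trans_le r2)).1
    have h2 := lf_move h Γ₁ h1
    rwa [x1, κ0, y10] at h2
  obtain ⟨Γ₀, z1, z2, -, -⟩ := T1 w (by rw [hυ]; exact w1.mono m1)
  let υw : C(I, SM g.symm) := ⟨fun t => (Pr.snd (g := g) (Γ₀ t)),
    (Pr.snd_continuous (g := g)).comp Γ₀.continuous⟩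
  obtain ⟨x, hx⟩ := hLw υw z2
  exact ⟨x, LO_comp (g := g) (υ' := υw) ⟨Γ₀, rfl, rfl, z1, fun t => rfl⟩ hx⟩

/-- **Liftability of small displacements at a dense set of points.** -/
theorem lf_of_lfs (h : LP g c) (hX : ULC X) {ρ : ℝ} (hρ : 0 < ρ) (hD : Dense {p | LfS g ρ p}) :
    ∀ a s, WS g a s → Lf g a s := by
  obtain ⟨ρ', hρ', H⟩ := lfs_closure h hX hρ
  intro a s has υ hυ
  obtain ⟨n, hn⟩ := has.eventually_lt hρ'
  have h2 : SR g ρ' (g^[n] a) (g^[n] s) := fun k => by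
    rw [← Function.iterate_add_apply, ← Function.iterate_add_apply]
    exact (hn (k + n) (by omega)).le
  have hcm : ∀ x, g (g.symm x) = g.symm (g x) := fun x => by
    rw [g.symm_apply_apply, g.apply_symm_apply]
  let υ' : C(I, SM g.symm) := ⟨fun t => ⟨g^[n] (υ t).val⟩,
    (SM.continuous_mapIter (g := g.symm) (φ := g) hcm n).comp υ.continuous⟩
  obtain ⟨x, hx⟩ := H _ (hD (g^[n] a)) _ h2 υ' (by
    show g^[n] (υ 0).val = _
    rw [hυ])
  exact LO_of_iter (g := g) (φ := g) (fun _ => rfl) n υ υ' s x (fun t => rfl) hx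

/-- small displacements under powers -/
theorem sr_small {f : X ≃ₜ X} {N : ℕ} (hN : 1 ≤ N) {𝒲 : Set (X × X)}
    (h𝒲 : 𝒲 ∈ 𝓝ˢ (diagonal X)) : ∃ ε > 0, ∀ p q, SR (iterHomeo f N) ε p q →
      ∀ n : ℕ, (f^[n] p, f^[n] q) ∈ 𝒲 := by
  obtain ⟨ε, hε, h1⟩ := (diag_iff _).1 h𝒲
  obtain ⟨η, hη, h2⟩ := T1_unif f N hε
  refine ⟨η / 2, half_pos hη, fun p q hpq n => ?_⟩
  have hnn : n = n % N + N * (n / N) := (Nat.mod_add_div n N).symm
  have h3 := hpq (n / N)
  rw [it_iter, it_iter] at h3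
  have h4 := h2 (n % N) (Nat.mod_lt _ (by omega)).le _ _ (lt_of_le_of_lt h3 (half_lt_self hη))
  rw [← Function.iterate_add_apply, ← Function.iterate_add_apply, ← hnn] at h4
  exact h1 _ _ h4

/-- strips from rectangles -/
theorem lo_of_spans {f : X ≃ₜ X} {N : ℕ} (hN : 1 ≤ N) {k : X ≃ₜ X} (hk : k = iterHomeo f N)
    (v : C(I, SM k)) (υ : C(I, SM k.symm)) (α β : C(I, X))
    (hα : ∀ t, α t = (v t).val) (hβ : ∀ t, β t = (υ t).val) (hs : Spans f α β) :
    ∃ x, LO υ (v 1).val x := by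
  obtain ⟨R, hR1, hR2, hR3⟩ := hs
  have hcon : Con k (fun t : I => R (0, t)) (fun t => R (1, t)) := by
    rw [hk]
    apply Con.to_iter hN
    intro ε hε
    have h1 : {p : X × X | dist p.1 p.2 < ε} ∈ 𝓝ˢ (diagonal X) :=
      (diag_iff _).2 ⟨ε, hε, fun x y hxy => hxy⟩
    obtain ⟨n, hn⟩ := eventually_atTop.1 (hR3 _ h1)
    exact ⟨n, fun m hm t => ((hn m hm 1 t).1 : dist _ _ < ε).le⟩
  have hcon' : Con k.symm (fun _ : I => R (1, 0)) (fun t => R (1, t)) := by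
    rw [hk, it_symm]
    apply Con.to_iter hN
    intro ε hε
    have h1 : {p : X × X | dist p.1 p.2 < ε} ∈ 𝓝ˢ (diagonal X) :=
      (diag_iff _).2 ⟨ε, hε, fun x y hxy => hxy⟩
    obtain ⟨n, hn⟩ := eventually_atTop.1 (hR3 _ h1)
    exact ⟨n, fun m hm t => ((hn m hm 1 t).2 : dist _ _ < ε).le⟩
  let Γ : I → Pr k := fun t => ⟨R (0, t), R (1, t), hcon.toWS t⟩
  have hΓ : Continuous Γ := by
    rw [Pr.continuous_iff]
    refine ⟨?_, ?_, ?_⟩
    · refine υ.continuous.congr fun t => ?_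
      apply SM.ext
      show (υ t).val = R (0, t)
      rw [hR2, hβ]
    · rw [Metric.continuous_iff']
      intro t ε hε
      have hc : Continuous (fun t : I => R ((1 : I), t)) := R.continuous.comp (by fun_prop)
      filter_upwards [hcon'.cont hc t (half_pos hε)] with r hr
      have h5 : dist ((Γ r).snd) ((Γ t).snd) ≤ ε / 2 :=
        (SM.dist_le _ _ (half_pos hε).le).2 hr.symm'
      exact lt_of_le_of_lt h5 (half_lt_self hε)
    · intro t ε hε
      obtain ⟨n, hn⟩ := hcon ε hε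
      exact ⟨n, Eventually.of_forall fun r k hk => hn k hk r⟩
  refine ⟨R (1, 1), ⟨Γ, hΓ⟩, ?_, rfl, fun t => ?_⟩
  · show R (1, 0) = _
    rw [hR1, hα]
  · show R (0, t) = (υ t).val
    rw [hR2, hβ]

theorem con_path {k : X ≃ₜ X} (h : LP k c) (v : C(I, SM k)) :
    Con k (fun _ : I => (v 0).val) (fun t => (v t).val) := by
  intro ε hε
  obtain ⟨n, hn⟩ := path_small h v hε
  exact ⟨n, fun m hm t => hn m hm t 0⟩

/-- liftability of small displacements from the product structure -/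
theorem lfs_of_product {f : X ≃ₜ X} {N : ℕ} (hN : 1 ≤ N) (h : LP (iterHomeo f N) c) (hX : ULC X)
    {𝒲 : Set (X × X)} (h𝒲 : 𝒲 ∈ 𝓝ˢ (diagonal X)) :
    ∃ ρ > 0, ∀ p, ProductAt f 𝒲 p → LfS (iterHomeo f N) ρ p := by
  obtain ⟨ε, hε, h1⟩ := sr_small (f := f) hN h𝒲
  obtain ⟨ρ, hρ, h2⟩ := leaf_path h hX ε hε
  refine ⟨ρ, hρ, fun p hP s hs υ hυ => ?_⟩
  obtain ⟨v, v0, v1, vs⟩ := h2 ⟨p⟩ ⟨s⟩ ((SM.dist_le _ _ hρ.le).2 hs)
  let α : C(I, X) := ⟨fun t => (v t).val, SM.val_continuous.comp v.continuous⟩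
  let β : C(I, X) := ⟨fun t => (υ t).val, SM.val_continuous.comp υ.continuous⟩
  have hα0 : α 0 = p := by show (v 0).val = p; rw [v0]
  have hα : StablePath f α := by
    rw [stablePath_iff]
    exact Con.of_iter hN (con_path h v)
  have hβ : StablePath f.symm β := by
    rw [stablePath_iff]
    apply Con.of_iter hN
    rw [← it_symm]
    exact con_path h.symm υ
  have h3 := hP α β hα hβ hα0 hυ fun n t => by
    rw [hα0]
    refine h1 _ _ ((SM.dist_le _ _ hε.le).1 (vs t)) n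
  have h4 := lo_of_spans hN rfl v υ α β (fun _ => rfl) (fun _ => rfl) h3
  rwa [v1] at h4

/-- **Closed backward invariant sets containing a local stable set.** -/
theorem univ_of_disc (h : LP g c) (hT : TopTransitive g) {K : Set X} (hK : IsClosed K)
    (hinv : ∀ x ∈ K, g.symm x ∈ K) {x : X} {ρ : ℝ} (hρ : 0 < ρ)
    (hD : ∀ q, SR g ρ x q → q ∈ K) : K = univ := by
  by_contra hcon
  obtain ⟨v₀, hv₀⟩ := (ne_univ_iff_exists_notMem K).1 hcon
  obtain ⟨η, hη, hV⟩ := Metric.isOpen_iff.1 hK.isOpen_compl v₀ hv₀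
  obtain ⟨δ, hδ, hlp⟩ := h.lp (min ρ c) (lt_min hρ h.c_pos)
  obtain ⟨m, hm⟩ := qs_exists_pow h.c_pos (half_pos hη)
  have hopen : IsOpen (g^[m] '' ball v₀ (η / 2)) := isOpen_it g m isOpen_ball
  obtain ⟨n, y, ⟨z, ⟨v, hv, rfl⟩, rfl⟩, hy⟩ := hT _ _ hopen
    ((nonempty_ball.2 (half_pos hη)).image _) (isOpen_ball (x := x) (ε := δ))
    (nonempty_ball.2 hδ)
  rw [mem_ball, dist_comm] at hy
  obtain ⟨z, hz1, hz2⟩ := hlp _ _ hy
  have hzK : z ∈ K := hD z (hz1.mono (min_le_left _ _))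
  have hback : ∀ j : ℕ, g.symm^[j] z ∈ K := by
    intro j
    induction j with
    | zero => exact hzK
    | succ j ih => rw [Function.iterate_succ_apply']; exact hinv _ ih
  have h1 := h.cU _ _ (hz2.mono (min_le_right _ _)) (n + m)
  rw [← Function.iterate_add_apply, iterL] at h1
  have h2 := hm (n + m) (by omega)
  have h3 : g.symm^[n + m] z ∈ ball v₀ η := by
    rw [mem_ball] at hv ⊢
    have h4 := dist_triangle_left (g.symm^[n + m] z) v₀ v
    linarith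
  exact hV h3 (hback _)

theorem trans_symm (hT : TopTransitive g) : TopTransitive g.symm := by
  intro U V hU hUn hV hVn
  obtain ⟨n, y, ⟨v, hv, rfl⟩, hy⟩ := hT V U hV hVn hU hUn
  exact ⟨n, v, ⟨_, hy, iterL g n v⟩, hv⟩

end Pool.Agent.K6.H54.AN
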