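import Pool.Agent.K6.H54.AN.Core2

/-!
# Homoclinic unstable paths
-/

set_option autoImplicit false
set_option linter.unusedSectionVars false

open Filter Topology Set Metric unitInterval

namespace Pool.Agent.K6.H54.AN

open Pool.Agent.H721R2 Pool.Agent.H789R2.AN Pool.Agent.H789R2.GP Pool.Agent.TH289.K
  Pool.Agent.TH289.L Pool.Agent.TH304.K289 Pool.Agent.K6.H72.FB

/-- Product structure at `p` up to the stable size `𝒲`, tested on homoclinic unstable paths only:
every stable path `α` with initial point `p` whose forward iterates are `𝒲`-small and every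
unstable path `β` with initial point `p` whose endpoint is forward asymptotic to `p` span a
rectangle. -/
def HomoclinicProductAt {M : Type*} [TopologicalSpace M] (f : M ≃ₜ M) (𝒲 : Set (M × M)) (p : M) :
    Prop :=
  ∀ α β : C(I, M), StablePath f α → StablePath f.symm β → α 0 = p → β 0 = p →
    (∀ (n : ℕ) (t : I), (f^[n] (α 0), f^[n] (α t)) ∈ 𝒲) →
    (∀ 𝒰 ∈ 𝓝ˢ (diagonal M), ∀ᶠ n in atTop, (f^[n] p, f^[n] (β 1)) ∈ 𝒰) → Spans f α β

variable {X : Type*} [MetricSpace X] [CompactSpace X] {c : ℝ}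

/-- the half of the parameter -/
noncomputable def hf (t : I) : I := ⟨t / 2, by have := t.2.1; linarith, by have := t.2.2; linarith⟩

theorem continuous_hf : Continuous hf := by
  unfold hf
  fun_prop

theorem hf_zero : hf 0 = 0 := Subtype.ext (by simp [hf])

/-- rectangles over an initial segment -/
theorem spans_init {f : X ≃ₜ X} {α β β' : C(I, X)} (hs : Spans f α β')
    (hβ : ∀ t, β t = β' (hf t)) : Spans f α β := by
  obtain ⟨R, hR1, hR2, hR3⟩ := hs
  refine ⟨⟨fun q => R (q.1, hf q.2), R.continuous.comp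
    (continuous_fst.prodMk (continuous_hf.comp continuous_snd))⟩, fun s => ?_, fun t => ?_,
    fun 𝒰 h𝒰 => ?_⟩
  · show R (s, hf 0) = α s
    rw [hf_zero, hR1]
  · show R (0, hf t) = β t
    rw [hR2, hβ]
  · filter_upwards [hR3 𝒰 h𝒰] with n hn s t
    refine ⟨(hn s (hf t)).1, ?_⟩
    show (f.symm^[n] (R (s, hf 0)), f.symm^[n] (R (s, hf t))) ∈ 𝒰
    rw [hf_zero]
    exact (hn s (hf t)).2

theorem stable_dense {k : X ≃ₜ X} (h : LP k c) (hT : TopTransitive k) {p : X} (hp : k p = p) :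
    Dense {q | WS k p q} := by
  rw [dense_iff_closure_eq]
  refine univ_of_disc h hT isClosed_closure (fun x hx => ?_) (x := p) h.c_pos
    (fun q hq => subset_closure (WS.of_SR (h.cS _ _ hq)))
  refine map_mem_closure k.symm.continuous hx fun a ha => ?_
  have h1 : WS k (k.symm p) (k.symm a) := WS.map (g := k) (φ := k.symm) (fun x => by
    rw [k.symm_apply_apply, k.apply_symm_apply]) ha
  have h2 : k.symm p = p := by
    rw [Homeomorph.symm_apply_eq, hp]
  rw [h2] at h1
  exact h1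

/-- **Homoclinic unstable paths suffice** at the periodic points. -/
theorem product_of_homoclinic {f : X ≃ₜ X} {N : ℕ} (hN : 1 ≤ N) (h : LP (iterHomeo f N) c)
    (hX : ULC X) (hT : TopTransitive (iterHomeo f N)) {p : X} (hp : iterHomeo f N p = p)
    {𝒲 : Set (X × X)} (hH : HomoclinicProductAt f 𝒲 p) : ProductAt f 𝒲 p := by
  intro α β hα hβ hα0 hβ0 h𝒲
  have hcon : Con (iterHomeo f N).symm (fun _ : I => β 0) (fun t => β t) := by
    rw [it_symm]
    exact Con.to_iter hN (stablePath_iff.1 hβ)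
  obtain ⟨v, hv⟩ := sm_of_con hcon
  obtain ⟨η, hη, h1⟩ := leaf_path h.symm hX 1 one_pos
  obtain ⟨δ, hδ, hlp⟩ := h.lp (min η c) (lt_min hη h.c_pos)
  obtain ⟨q, hq, hqd⟩ := Metric.mem_closure_iff.1 (stable_dense h hT hp (β 1)) δ hδ
  rw [dist_comm] at hqd
  obtain ⟨w, hw1, hw2⟩ := hlp _ _ hqd
  have hpw : WS (iterHomeo f N) p w :=
    WS.trans hq (WS.of_SR (h.cS _ _ (hw1.mono (min_le_right _ _))))
  obtain ⟨κ, κ0, κ1, -⟩ := h1 (v 1) ⟨w⟩ ((SM.dist_le _ _ hη.le).2 (by
    rw [hv]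
    exact hw2.mono (min_le_left _ _)))
  let p₁ : Path (v 0) (v 1) := ⟨v, rfl, rfl⟩
  let p₂ : Path (v 1) (⟨w⟩ : SM (iterHomeo f N).symm) := ⟨κ, κ0, κ1⟩
  let v' : C(I, SM (iterHomeo f N).symm) := (p₁.trans p₂).toContinuousMap
  let β' : C(I, X) := ⟨fun t => (v' t).val, SM.val_continuous.comp v'.continuous⟩
  have e0 : β' 0 = p := by
    show ((p₁.trans p₂) 0).val = p
    rw [Path.source, hv, hβ0]
  have e1 : β' 1 = w := by
    show ((p₁.trans p₂) 1).val = w
    rw [Path.target]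
  have e2 : ∀ t, β t = β' (hf t) := by
    intro t
    show β t = ((p₁.trans p₂) (hf t)).val
    have ht : ((hf t : I) : ℝ) ≤ 1 / 2 := by
      show (t : ℝ) / 2 ≤ 1 / 2
      linarith [t.2.2]
    rw [Path.trans_apply, dif_pos ht]
    show β t = (v _).val
    rw [hv]
    congr 1
    apply Subtype.ext
    show (t : ℝ) = 2 * ((t : ℝ) / 2)
    ring
  refine spans_init (hH α β' hα (sp_of_sm' hN h v') hα0 e0 h𝒲 fun 𝒰 h𝒰 => ?_) e2
  rw [e1]
  have hcw : Con (iterHomeo f N) (fun _ : Unit => p) (fun _ => w) := by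
    intro ε hε
    obtain ⟨n, hn⟩ := hpw.eventually_lt hε
    exact ⟨n, fun m hm _ => (hn m hm).le⟩
  obtain ⟨ε, hε, h2⟩ := (diag_iff _).1 h𝒰
  obtain ⟨n, hn⟩ := Con.of_iter hN hcw (ε / 2) (half_pos hε)
  exact eventually_atTop.2 ⟨n, fun m hm => h2 _ _ (lt_of_le_of_lt (hn m hm ()) (half_lt_self hε))⟩

end Pool.Agent.K6.H54.AN
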