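import Pool.Agent.K6.H54.AN.Hom
import Pool.Agent.K6.H72.FB.A5
import Pool.Agent.H576R3.CF.NW
import Pool.Agent.H779R2.An.Periodic

/-!
# Product structure at a dense set of points: Anosov diffeomorphisms
-/

set_option autoImplicit false
set_option linter.unusedSectionVars false

open Filter Topology Set Metric MeasureTheory
open scoped Manifold ContDiff

namespace Pool.Agent.K6.H54.AN

open Pool.Agent.H721R2 Pool.Agent.H789R2.AN Pool.Agent.H789R2.GP Pool.Agent.TH289.K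
  Pool.Agent.TH289.L Pool.Agent.TH304.K289 Pool.Agent.K6.H72.FB
open Pool.Agent.H576R3.CF (nw_pow trans_of_nw)

section topology

variable {M : Type*} [TopologicalSpace M]

/-- the good set at scale `𝒲` is backward invariant -/
theorem good_back {f : M ≃ₜ M} {𝒲 : Set (M × M)} {p : M} (h : ProductAt f 𝒲 p) :
    ProductAt f 𝒲 (f.symm p) := by
  intro α β hα hβ h1 h2 h3
  have h4 := h (cmp f α) (cmp f β) (stable_semi (fun _ => rfl) hα)
    (stable_semi (f := f.symm) (g := f.symm) (fun x => by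
      rw [f.symm_apply_apply, f.apply_symm_apply]) hβ)
    (by rw [cmp_apply, h1, f.apply_symm_apply]) (by rw [cmp_apply, h2, f.apply_symm_apply])
    (fun n t => by
      rw [cmp_apply, cmp_apply, ← Function.iterate_succ_apply, ← Function.iterate_succ_apply]
      exact h3 (n + 1) t)
  exact spans_it f 1 α β h4

theorem closure_back {f : M ≃ₜ M} {𝒲 : Set (M × M)} {x : M}
    (hx : x ∈ closure {p | ProductAt f 𝒲 p}) : f.symm x ∈ closure {p | ProductAt f 𝒲 p} :=
  map_mem_closure f.symm.continuous hx fun _ ha => good_back ha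

theorem closure_forw {f : M ≃ₜ M} {x : M}
    (hx : x ∈ closure {p | ProductAt f univ p}) : f x ∈ closure {p | ProductAt f univ p} :=
  map_mem_closure f.continuous hx fun a ha => (full_iff f a).2 ha

theorem it_back {f : M ≃ₜ M} {K : Set M} (h : ∀ x ∈ K, f.symm x ∈ K) {x : M} (hx : x ∈ K)
    (n : ℕ) : f.symm^[n] x ∈ K := by
  induction n with
  | zero => exact hx
  | succ n ih => rw [Function.iterate_succ_apply']; exact h _ ih

/-- ergodic measures of full support charge no proper closed backward invariant set -/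
theorem univ_of_measure [MeasurableSpace M] [BorelSpace M] {f : M ≃ₜ M} (μ : Measure M)
    [IsFiniteMeasure μ] [μ.IsOpenPosMeasure] (he : Ergodic f μ) {K : Set M} (hK : IsClosed K)
    (hinv : ∀ x ∈ K, f.symm x ∈ K) (h0 : μ K ≠ 0) : K = univ := by
  have hsub : f ⁻¹' K ⊆ K := fun x hx => by
    have := hinv _ hx
    rwa [f.symm_apply_apply] at this
  rcases he.ae_empty_or_univ_of_preimage_ae_le hK.measurableSet.nullMeasurableSet
    (Eventually.of_forall fun x hx => hsub hx) with h | h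
  · exact (h0 (by rw [measure_congr h, measure_empty])).elim
  · have h1 : μ Kᶜ = 0 := by
      rw [measure_congr h.compl, compl_univ, measure_empty]
    exact compl_empty_iff.1 ((hK.isOpen_compl.measure_eq_zero_iff μ).1 h1)

theorem nbhd_of_open [T1Space M] {O : Set M} (hO : IsOpen O) {x : M} (hx : x ∈ O) :
    {q : M × M | q.1 = x → q.2 ∈ O} ∈ 𝓝ˢ (diagonal M) := by
  refine (IsOpen.mem_nhdsSet ?_).2 ?_
  · have e : {q : M × M | q.1 = x → q.2 ∈ O} = Prod.fst ⁻¹' {x}ᶜ ∪ Prod.snd ⁻¹' O := by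
      ext q
      simp only [mem_ofPred_eq, mem_union, mem_preimage, mem_compl_iff, mem_singleton_iff]
      tauto
    rw [e]
    exact (isOpen_compl_singleton.preimage continuous_fst).union (hO.preimage continuous_snd)
  · rintro ⟨a, b⟩ hab
    rw [mem_diagonal_iff] at hab
    simp only at hab
    subst hab
    intro h
    simp only at h
    rw [h]
    exact hx

end topology

theorem disc_univ {X : Type*} [MetricSpace X] [CompactSpace X] {c : ℝ} {f : X ≃ₜ X} {N : ℕ}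
    (hN : 1 ≤ N) (h : LP (iterHomeo f N) c) (hT : TopTransitive (iterHomeo f N))
    {K : Set X} (hK : IsClosed K) (hinv : ∀ x ∈ K, f.symm x ∈ K)
    {𝒱 : Set (X × X)} (h𝒱 : 𝒱 ∈ 𝓝ˢ (diagonal X)) (x : X)
    (hD : ∀ q, (∀ n : ℕ, (f^[n] x, f^[n] q) ∈ 𝒱) → q ∈ K) : K = univ := by
  obtain ⟨ε, hε, h1⟩ := sr_small (f := f) hN h𝒱
  refine univ_of_disc h hT hK (fun y hy => ?_) hε (x := x) fun q hq => hD q (h1 _ _ hq)
  exact it_back hinv hy N

section manifold

variable {E : Type*} [NormedAddCommGroup E] [NormedSpace ℝ E] [FiniteDimensional ℝ E]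
  {M : Type*} [TopologicalSpace M] [T2Space M] [CompactSpace M] [ConnectedSpace M]
  [ChartedSpace E M] [IsManifold 𝓘(ℝ, E) ∞ M]

open Pool.Agent.TH289 (exists_sys_ev) in
/-- **Product structure at a dense set of points.** -/
theorem man_dense (f : Diffeomorph 𝓘(ℝ, E) 𝓘(ℝ, E) M M 1)
    (Es Eu : ∀ x : M, Submodule ℝ (TangentSpace 𝓘(ℝ, E) x)) (hA : IsAnosov f Es Eu)
    {𝒲 : Set (M × M)} (h𝒲 : 𝒲 ∈ 𝓝ˢ (diagonal M))
    (hD : Dense {p | ProductAt f.toHomeomorph 𝒲 p}) :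
    GPS f.toHomeomorph ∧ TopTransitive f ∧
      ∃ π : E → M, IsCoveringMap π ∧ Function.Surjective π := by
  obtain ⟨m, ee, hee, hemb, hinje⟩ :=
    exists_embedding_euclidean_of_compact (I := 𝓘(ℝ, E)) (M := M)
  let _ : MetricSpace M := hemb.isEmbedding.comapMetricSpace ee
  have hiso : ∀ x y : M, dist x y = ‖ee x - ee y‖ := fun x y => dist_eq_norm (ee x) (ee y)
  have he1 : ContMDiff 𝓘(ℝ, E) (𝓡 m) 1 ee := hee.of_le (by simp)
  obtain ⟨N, ⟨S, hg, -, -, -⟩, hN⟩ :=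
    ((exists_sys_ev hiso he1 hinje f Es Eu hA).and (eventually_ge_atTop 1)).exists
  have : ProperSpace E := FiniteDimensional.proper_real E
  obtain ⟨c, hLP⟩ := exists_LP S
  rw [hg] at hLP
  have hX : ULC M := ulc_of_charted (X := M) (E := E)
  obtain ⟨ρ, hρ, H⟩ := lfs_of_product hN hLP hX h𝒲
  have hall := lf_of_lfs hLP hX hρ (hD.mono H)
  obtain ⟨c₁, hc₁, ⟨T⟩⟩ := exists_IQS hLP hX hall
  have hG : GPS f.toHomeomorph := gps_of_iqs hN rfl hLP hc₁ T
  exact ⟨hG, man_self f Es Eu hA hG⟩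

open Pool.Agent.TH289 (exists_sys_ev) in
/-- Nonwandering Anosov diffeomorphisms: periodic points, local stable and unstable sets. -/
theorem man_nw (f : Diffeomorph 𝓘(ℝ, E) 𝓘(ℝ, E) M M 1)
    (Es Eu : ∀ x : M, Submodule ℝ (TangentSpace 𝓘(ℝ, E) x)) (hA : IsAnosov f Es Eu)
    (hnw : ∀ U : Set M, IsOpen U → U.Nonempty → ∃ m : ℕ, 1 ≤ m ∧ (f^[m] '' U ∩ U).Nonempty) :
    Dense (Function.periodicPts f) ∧
    (∀ K : Set M, IsClosed K → (∀ x ∈ K, f.toHomeomorph.symm x ∈ K) →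
      ∀ 𝒱 ∈ 𝓝ˢ (diagonal M), ∀ x : M, (∀ q, (∀ n : ℕ, (f.toHomeomorph^[n] x,
        f.toHomeomorph^[n] q) ∈ 𝒱) → q ∈ K) → K = univ) ∧
    (∀ K : Set M, IsClosed K → (∀ x ∈ K, f.toHomeomorph x ∈ K) →
      ∀ 𝒱 ∈ 𝓝ˢ (diagonal M), ∀ x : M, (∀ q, (∀ n : ℕ, (f.toHomeomorph.symm^[n] x,
        f.toHomeomorph.symm^[n] q) ∈ 𝒱) → q ∈ K) → K = univ) := by
  obtain ⟨m, ee, hee, hemb, hinje⟩ :=
    exists_embedding_euclidean_of_compact (I := 𝓘(ℝ, E)) (M := M)
  let _ : MetricSpace M := hemb.isEmbedding.comapMetricSpace ee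
  have hiso : ∀ x y : M, dist x y = ‖ee x - ee y‖ := fun x y => dist_eq_norm (ee x) (ee y)
  have he1 : ContMDiff 𝓘(ℝ, E) (𝓡 m) 1 ee := hee.of_le (by simp)
  obtain ⟨N, ⟨S, hg, -, -, -⟩, hN⟩ :=
    ((exists_sys_ev hiso he1 hinje f Es Eu hA).and (eventually_ge_atTop 1)).exists
  have hit : ∀ k : ℕ, S.g^[k] = f^[N * k] := by
    intro k
    rw [hg, Function.iterate_mul]
    rfl
  have htr := trans_of_nw S (fun U hU hUn => by
    obtain ⟨k, hk, hk'⟩ := nw_pow f f.continuous hnw N hN U hU hUn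
    exact ⟨k, hk, by rwa [hit]⟩)
  have hT : TopTransitive (iterHomeo f.toHomeomorph N) := by
    intro U V hU hUn hV hVn
    have := htr U V hU hUn hV hVn
    rwa [hg] at this
  obtain ⟨c, hLP⟩ := exists_LP S
  rw [hg] at hLP
  refine ⟨fun x => ?_, fun K hK hinv 𝒱 h𝒱 x hD => disc_univ hN hLP hT hK hinv h𝒱 x hD,
    fun K hK hinv 𝒱 h𝒱 x hD => ?_⟩
  · rw [Metric.mem_closure_iff]
    intro ε hε
    obtain ⟨y, k, hk, hy, hd⟩ := Pool.Agent.H779R2.An.periodic_dense S htr x ε hε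
    refine ⟨y, ⟨N * k, Nat.mul_pos hN hk, ?_⟩, by rwa [dist_comm]⟩
    rw [Function.IsPeriodicPt, Function.IsFixedPt, ← hit]
    exact hy
  · refine disc_univ (f := f.toHomeomorph.symm) hN (c := c) ?_ ?_ hK hinv h𝒱 x hD
    · rw [← it_symm]
      exact hLP.symm
    · rw [← it_symm]
      exact trans_symm hT

open Pool.Agent.TH289 (exists_sys_ev) in
/-- Nonwandering Anosov diffeomorphisms: homoclinic unstable paths at the periodic points. -/
theorem man_hom (f : Diffeomorph 𝓘(ℝ, E) 𝓘(ℝ, E) M M 1)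
    (Es Eu : ∀ x : M, Submodule ℝ (TangentSpace 𝓘(ℝ, E) x)) (hA : IsAnosov f Es Eu)
    (hnw : ∀ U : Set M, IsOpen U → U.Nonempty → ∃ m : ℕ, 1 ≤ m ∧ (f^[m] '' U ∩ U).Nonempty)
    {p : M} (hp : p ∈ Function.periodicPts f) {𝒲 : Set (M × M)}
    (hH : HomoclinicProductAt f.toHomeomorph 𝒲 p) : ProductAt f.toHomeomorph 𝒲 p := by
  obtain ⟨m, ee, hee, hemb, hinje⟩ :=
    exists_embedding_euclidean_of_compact (I := 𝓘(ℝ, E)) (M := M)
  let _ : MetricSpace M := hemb.isEmbedding.comapMetricSpace ee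
  have hiso : ∀ x y : M, dist x y = ‖ee x - ee y‖ := fun x y => dist_eq_norm (ee x) (ee y)
  have he1 : ContMDiff 𝓘(ℝ, E) (𝓡 m) 1 ee := hee.of_le (by simp)
  obtain ⟨j, hj, hj'⟩ := hp
  obtain ⟨N₀, hN₀⟩ := eventually_atTop.1 ((exists_sys_ev hiso he1 hinje f Es Eu hA).and
    (eventually_ge_atTop 1))
  obtain ⟨⟨S, hg, -, -, -⟩, hN⟩ := hN₀ (j * N₀) (Nat.le_mul_of_pos_left _ hj)
  have hit : ∀ k : ℕ, S.g^[k] = f^[j * N₀ * k] := by
    intro k
    rw [hg, Function.iterate_mul]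
    rfl
  have htr := trans_of_nw S (fun U hU hUn => by
    obtain ⟨k, hk, hk'⟩ := nw_pow f f.continuous hnw (j * N₀) hN U hU hUn
    exact ⟨k, hk, by rwa [hit]⟩)
  have hT : TopTransitive (iterHomeo f.toHomeomorph (j * N₀)) := by
    intro U V hU hUn hV hVn
    have := htr U V hU hUn hV hVn
    rwa [hg] at this
  obtain ⟨c, hLP⟩ := exists_LP S
  rw [hg] at hLP
  have : ProperSpace E := FiniteDimensional.proper_real E
  have hX : ULC M := ulc_of_charted (X := M) (E := E)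
  refine product_of_homoclinic hN hLP hX hT ?_ hH
  show f^[j * N₀] p = p
  exact hj'.mul_const N₀

end manifold

end Pool.Agent.K6.H54.AN
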